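import Mathlib

namespace Pool.Agent.Results.MP_10a600_co.Complete

variable {V : Type} (G : SimpleGraph V)

def pattern (M : Set V) (u : V) : Set ℕ := {d | ∃ v ∈ M, v ≠ u ∧ d = G.dist u v}

def ODPU (M : Set V) : Prop := M.Nonempty ∧ ∀ u w, pattern G M u = pattern G M w

def TotalDom (S : Set V) : Prop := ∀ u, ∃ v ∈ S, G.Adj u v

theorem result [Finite V] (hG : G.Connected) : (∀ S, TotalDom G S → ODPU G S) ↔ G = ⊤ := by
  have := hG.nonempty
  constructor
  · intro h
    refine eq_top_iff.2 fun v w n => not_not.1 fun a => ?_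
    obtain ⟨u, hu⟩ := Finite.exists_max (G.dist v)
    have h2 : 1 < G.dist v u := (hG.one_lt_dist_of_ne_of_not_adj n a).trans_le (hu w)
    have key (x : V) (hx : x ≠ v) : ∃ y, G.dist v y < G.dist v x ∧ G.Adj x y := by
      obtain ⟨p, hp⟩ := hG.exists_walk_length_eq_dist x v
      cases p with
      | nil => exact absurd rfl hx
      | cons e p =>
        have := SimpleGraph.dist_le p.reverse
        rw [SimpleGraph.Walk.length_cons, SimpleGraph.dist_comm] at hp
        rw [SimpleGraph.Walk.length_reverse] at this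
        exact ⟨_, by omega, e⟩
    have e := (h {x | G.dist v x < G.dist v u} fun x => ?_).2 u v
    · have m : G.dist v u ∈ pattern G {x | G.dist v x < G.dist v u} u :=
        ⟨v, by simp; omega, by rintro rfl; simp at h2, SimpleGraph.dist_comm⟩
      obtain ⟨y, h1, -, h3⟩ := e ▸ m
      exact h1.ne' h3
    by_cases hx : x = v
    · obtain ⟨p⟩ := hG v w
      cases p with
      | nil => exact absurd rfl n
      | cons e p => exact ⟨_, (SimpleGraph.dist_eq_one_iff_adj.2 e).trans_lt h2, hx ▸ e⟩
    · obtain ⟨y, h1, h3⟩ := key x hx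
      exact ⟨y, h1.trans_le (hu x), h3⟩
  · rintro rfl S h
    have e (u : V) : pattern ⊤ S u = {1} := by
      ext d
      refine ⟨fun ⟨v, _, n, e⟩ => e.trans (SimpleGraph.dist_eq_one_iff_adj.2 n.symm), ?_⟩
      rintro rfl
      obtain ⟨v, m, a⟩ := h u
      exact ⟨v, m, a.ne', (SimpleGraph.dist_eq_one_iff_adj.2 a).symm⟩
    obtain ⟨v, m, -⟩ := h (Classical.arbitrary V)
    exact ⟨⟨v, m⟩, fun u w => by rw [e, e]⟩

end Pool.Agent.Results.MP_10a600_co.Complete
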